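import Pool.Agent.Helper35.HG.StC

/-!
MODULE THB of project HG (helper35): decay of `θ` relative to the maximum of `|H|²` (`PDaB`).
-/

set_option autoImplicit false

namespace Helper55.HG

open Helper35.HG Helper35.HC Helper35.HSF Helper35.MS Helper35.PI Helper35.PI2 Helper32.CL
open scoped ContDiff Manifold Topology ENNReal BigOperators
open MeasureTheory Set Filter

theorem hTHB (hLPB : StLPB) (hMVN : StMVN) (hPKB : StPKB) (hHTR : StHTR) (hMUJ : StMUJ)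
    (hV5 : StV5) (hSMF : StSMF) : StTHB := by
  intro n hn N M _ _ _ _ _ _ T F ts κ₀ δ C₀ hD
  let _ : MeasurableSpace M := borel M
  have : BorelSpace M := ⟨rfl⟩
  have : SecondCountableTopology M := ChartedSpace.secondCountable_of_sigmaCompact (EE n) M
  have hn1 : 1 ≤ n := by omega
  obtain ⟨c, χ, hpu⟩ := hV5 n M
  obtain ⟨p, hnp, hp3, L, C₁, hL0, hC₁⟩ := hLPB n hn N M T F ts κ₀ δ C₀ c χ hpu hD
  have hC0 : 1 ≤ C₀ := hD.C1
  have hC00 : 0 ≤ C₀ := by linarith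
  obtain ⟨Cn, hCn, hMVC⟩ := hMVN n hn1
  have hfl := hD.fl
  have him : IsImmJ (n := n) (Ioo 0 T) F := hfl.toIsImmJ
  have hts0 : 0 < ts := hD.ts0.1
  have htsT : ts < T := hD.ts0.2
  obtain ⟨-, -, -, hSY, hSth, -, -, -⟩ := hSMF n N M (Ioo 0 T) F him
  have hp0 : 0 < p := by omega
  have hpR : (0 : ℝ) < p := by exact_mod_cast hp0
  have hnR : (0 : ℝ) < n := by exact_mod_cast (show 0 < n by omega)
  have hnpR : (n : ℝ) < p := by exact_mod_cast hnp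
  -- pointwise facts
  have hth0 : ∀ t ∈ Ico ts T, ∀ q, 0 ≤ thN n F q t := by
    intro t ht q
    obtain ⟨G, R, Z, a, w, -, -, -, h, -⟩ :=
      hPKB n hn N M T F ts κ₀ δ C₀ hD t ht q _ _ _ rfl rfl rfl
    exact h
  have hY1 : ∀ t ∈ Ico ts T, ∀ q, 1 ≤ ‖HH (n := n) F q t‖ ^ 2 := fun t ht q =>
    hD.Y1 t ⟨by linarith [ht.1], ht.2⟩ q
  -- the function `u`
  have hψ : ContDiff ℝ ∞ (fun x : ℝ => x ^ p) := contDiff_id.pow p
  obtain ⟨hSu, hu⟩ := (hHTR n N M (Ioo 0 T) F him (thN n F) (thN n F) hSth hSth).2.2.1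
    (fun x : ℝ => x ^ p) hψ
  have hd1 : deriv (fun x : ℝ => x ^ p) = fun x : ℝ => (p : ℝ) * x ^ (p - 1) := by
    funext x
    simp
  have hd2 : ∀ x : ℝ, deriv (deriv (fun x : ℝ => x ^ p)) x
      = (p : ℝ) * (((p - 1 : ℕ) : ℝ) * x ^ (p - 1 - 1)) := by
    intro x
    rw [hd1]
    simp
  have hhtu : ∀ t ∈ Ico ts T, ∀ q, htN n F (fun q t => thN n F q t ^ p) q t
      ≤ 20 * p * C₀ * ‖HH (n := n) F q t‖ ^ 2 * thN n F q t ^ p := by
    intro t ht q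
    have htJ : t ∈ Ioo 0 T := ⟨by linarith [ht.1], ht.2⟩
    have h1 := (hu q t htJ).2
    have hd1' : deriv (fun x : ℝ => x ^ p) (thN n F q t) = (p : ℝ) * thN n F q t ^ (p - 1) := by
      rw [hd1]
    rw [h1, hd2, hd1']
    obtain ⟨G, R, Z, a, w, hG, -, -, -, -, -, -, -, -, hR, -, -, hG1, -⟩ :=
      hPKB n hn N M T F ts κ₀ δ C₀ hD t ht q _ _ _ rfl rfl rfl
    rw [hG1]
    have hth := hth0 t ht q
    set θ := thN n F q t with hθ
    set Y := ‖HH (n := n) F q t‖ ^ 2 with hY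
    have hnn : 0 ≤ (p : ℝ) * (((p - 1 : ℕ) : ℝ) * θ ^ (p - 1 - 1))
        * ‖gdM n F t (fun q => thN n F q t) q‖ ^ 2 := by positivity
    have hpw : θ ^ (p - 1) * θ = θ ^ p := by
      rw [← pow_succ]
      congr 1
      omega
    have hA : (p : ℝ) * θ ^ (p - 1) * (-2 * G + 2 * R)
        ≤ (p : ℝ) * θ ^ (p - 1) * (20 * C₀ * Y * θ) := by
      apply mul_le_mul_of_nonneg_left _ (by positivity)
      linarith
    have hB : (p : ℝ) * θ ^ (p - 1) * (20 * C₀ * Y * θ) = 20 * p * C₀ * Y * θ ^ p := by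
      rw [← hpw]; ring
    linarith
  -- continuity at fixed times
  have hcon : ∀ (w : M → ℝ → ℝ), SmJ n (Ioo 0 T) w → ∀ t ∈ Ioo 0 T,
      Continuous (fun q => w q t) := by
    intro w hw t ht
    have h1 : ContinuousOn (fun z : M × ℝ => w z.1 z.2) (univ ×ˢ Ioo 0 T) := hw.continuousOn
    have h2 : Continuous (fun q : M => ((q, t) : M × ℝ)) := by fun_prop
    exact h1.comp_continuous h2 (fun q => ⟨mem_univ _, ht⟩)
  have hsetF : SetupF n (Ioo 0 T) F c χ := ⟨hfl, hpu⟩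
  obtain ⟨sf, -, hmu⟩ := hMUJ n N M (Ioo 0 T) F c χ hsetF.toJ
  -- the constants
  set t₂ : ℝ := (ts + T) / 2 with ht₂
  have ht2a : ts < t₂ := by rw [ht₂]; linarith
  have ht2b : t₂ < T := by rw [ht₂]; linarith
  set a : ℝ := n / (2 * p) with ha
  have ha0 : 0 < a := by rw [ha]; positivity
  have ha1 : a < 1 := by
    rw [ha, div_lt_one (by positivity)]
    linarith
  set K : ℝ := Cn * Real.exp (20 * p * C₀) * (max C₁ 0 * 2 ^ ((p : ℝ) - n)) with hK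
  have hK0 : 0 ≤ K := by
    rw [hK]
    have : 0 ≤ max C₁ 0 := le_max_right _ _
    have h2 : (0 : ℝ) ≤ 2 ^ ((p : ℝ) - n) := Real.rpow_nonneg (by norm_num) _
    positivity
  set Kp : ℝ := K ^ ((1 : ℝ) / p) with hKp
  have hKp0 : 0 ≤ Kp := Real.rpow_nonneg hK0 _
  have hKpp : Kp ^ p = K := by
    rw [hKp, ← Real.rpow_natCast, ← Real.rpow_mul hK0]
    rw [one_div, inv_mul_cancel₀ hpR.ne', Real.rpow_one]
  refine ⟨t₂, max 1 Kp, a, max (max 1 L) (1 / (t₂ - ts)), ⟨ht2a, ht2b⟩, le_max_left _ _, ha0,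
    ha1, (le_max_left _ _).trans (le_max_left _ _), ?_⟩
  intro t₀ ht₀ Λ hΛ hYΛ q
  have hΛ1 : 1 ≤ Λ := ((le_max_left _ _).trans (le_max_left _ _)).trans hΛ
  have hΛL : L ≤ Λ := ((le_max_right _ _).trans (le_max_left _ _)).trans hΛ
  have hΛ2 : 1 / (t₂ - ts) ≤ Λ := (le_max_right _ _).trans hΛ
  have hΛ0 : 0 < Λ := by linarith
  have hd0 : 0 < t₂ - ts := by linarith
  have hinv : 1 / Λ ≤ t₂ - ts := by
    rw [div_le_iff₀ hΛ0]
    rw [div_le_iff₀ hd0] at hΛ2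
    linarith
  have hinv0 : 0 < 1 / Λ := by positivity
  set t₁ : ℝ := t₀ - 1 / Λ with ht₁
  have ht10 : t₁ < t₀ := by rw [ht₁]; linarith
  have ht1s : ts ≤ t₁ := by rw [ht₁]; linarith [ht₀.1]
  have hIcc : Icc t₁ t₀ ⊆ Ioo 0 T := fun t ht =>
    ⟨by linarith [ht.1], by linarith [ht.2, ht₀.2]⟩
  have hIco : ∀ t ∈ Icc t₁ t₀, t ∈ Ico ts T := fun t ht =>
    ⟨by linarith [ht.1], by linarith [ht.2, ht₀.2]⟩
  have hYt : ∀ t ∈ Icc t₁ t₀, ∀ q, ‖HH (n := n) F q t‖ ^ 2 ≤ Λ := fun t ht q =>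
    hYΛ t ⟨by linarith [ht.1], ht.2⟩ q
  have hκ0 : 0 ≤ 20 * p * C₀ * Λ := by positivity
  have hm := hMVC N M (Ioo 0 T) F c χ hsetF (fun q t => thN n F q t ^ p)
    (20 * p * C₀ * Λ) t₁ t₀ hSu hκ0 ht10 hIcc
    (fun q t ht => pow_nonneg (hth0 t (hIco t ht) q) p)
    (fun q t ht => by
      refine (hhtu t (hIco t ht) q).trans ?_
      have h3 : 0 ≤ thN n F q t ^ p := pow_nonneg (hth0 t (hIco t ht) q) p
      have h4 : 20 * (p : ℝ) * C₀ * ‖HH (n := n) F q t‖ ^ 2 ≤ 20 * p * C₀ * Λ :=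
        mul_le_mul_of_nonneg_left (hYt t ht q) (by positivity)
      exact mul_le_mul_of_nonneg_right h4 h3) q
  have hdt : t₀ - t₁ = 1 / Λ := by rw [ht₁]; ring
  have hκt : 20 * p * C₀ * Λ * (t₀ - t₁) = 20 * p * C₀ := by
    rw [hdt]
    field_simp
  rw [hκt, hdt] at hm
  have ht1J : t₁ ∈ Ioo 0 T := hIcc ⟨le_refl _, ht10.le⟩
  have ht1I : t₁ ∈ Ico ts T := hIco t₁ ⟨le_refl _, ht10.le⟩
  have ht1Y := hYt t₁ ⟨le_refl _, ht10.le⟩
  -- the integral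
  have hcth : Continuous (fun q => thN n F q t₁) := hcon _ hSth t₁ ht1J
  have hcY : Continuous (fun q => ‖HH (n := n) F q t₁‖ ^ 2) := hcon _ hSY t₁ ht1J
  have hYpos : ∀ q, 0 < ‖HH (n := n) F q t₁‖ ^ 2 := fun q => by
    linarith [hY1 t₁ ht1I q]
  have hWpos : ∀ q, 0 < ‖HH (n := n) F q t₁‖ ^ 2 + L := fun q => by
    linarith [hYpos q]
  have hcg : Continuous (fun q => thN n F q t₁ ^ p *
      (‖HH (n := n) F q t₁‖ ^ 2 + L) ^ ((n : ℝ) - p)) := by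
    refine (hcth.pow p).mul
      ((hcY.add continuous_const).rpow_const (fun q => Or.inl (hWpos q).ne'))
  have hint : ∫ q', thN n F q' t₁ ^ p *
        Real.exp (-(‖F q' t₁ - F q t₀‖ ^ 2 / (8 * (1 / Λ)))) ∂muM n F c χ t₁
      ≤ max C₁ 0 * (2 * Λ) ^ ((p : ℝ) - n) := by
    have hgi := ((hmu t₁ ht1J).2.2 _ hcg).1
    have hstep : ∫ q', thN n F q' t₁ ^ p *
        Real.exp (-(‖F q' t₁ - F q t₀‖ ^ 2 / (8 * (1 / Λ)))) ∂muM n F c χ t₁
        ≤ ∫ q', (thN n F q' t₁ ^ p * (‖HH (n := n) F q' t₁‖ ^ 2 + L) ^ ((n : ℝ) - p))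
          * (2 * Λ) ^ ((p : ℝ) - n) ∂muM n F c χ t₁ := by
      apply integral_mono_of_nonneg
      · refine Filter.Eventually.of_forall (fun q' => ?_)
        have := hth0 t₁ ht1I q'
        simp only [Pi.zero_apply]
        positivity
      · exact hgi.mul_const _
      · refine Filter.Eventually.of_forall (fun q' => ?_)
        have h1 := hth0 t₁ ht1I q'
        have h2 := hWpos q'
        have h4 : ‖HH (n := n) F q' t₁‖ ^ 2 + L ≤ 2 * Λ := by linarith [ht1Y q']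
        have h5 : Real.exp (-(‖F q' t₁ - F q t₀‖ ^ 2 / (8 * (1 / Λ)))) ≤ 1 := by
          rw [Real.exp_le_one_iff]
          have : 0 ≤ ‖F q' t₁ - F q t₀‖ ^ 2 / (8 * (1 / Λ)) := by positivity
          linarith
        have h6 : (‖HH (n := n) F q' t₁‖ ^ 2 + L) ^ ((n : ℝ) - p) *
            (‖HH (n := n) F q' t₁‖ ^ 2 + L) ^ ((p : ℝ) - n) = 1 := by
          rw [← Real.rpow_add h2]
          simp
        have h7 : (‖HH (n := n) F q' t₁‖ ^ 2 + L) ^ ((p : ℝ) - n) ≤ (2 * Λ) ^ ((p : ℝ) - n) :=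
          Real.rpow_le_rpow h2.le h4 (by linarith)
        have h8 : 0 ≤ thN n F q' t₁ ^ p := pow_nonneg h1 p
        have h9 : 0 < (‖HH (n := n) F q' t₁‖ ^ 2 + L) ^ ((n : ℝ) - p) := Real.rpow_pos_of_pos h2 _
        calc thN n F q' t₁ ^ p * Real.exp (-(‖F q' t₁ - F q t₀‖ ^ 2 / (8 * (1 / Λ))))
            ≤ thN n F q' t₁ ^ p * 1 := mul_le_mul_of_nonneg_left h5 h8
          _ = (thN n F q' t₁ ^ p * (‖HH (n := n) F q' t₁‖ ^ 2 + L) ^ ((n : ℝ) - p))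
              * (‖HH (n := n) F q' t₁‖ ^ 2 + L) ^ ((p : ℝ) - n) := by rw [mul_assoc, h6]
          _ ≤ (thN n F q' t₁ ^ p * (‖HH (n := n) F q' t₁‖ ^ 2 + L) ^ ((n : ℝ) - p))
              * (2 * Λ) ^ ((p : ℝ) - n) :=
            mul_le_mul_of_nonneg_left h7 (mul_nonneg h8 h9.le)
    refine hstep.trans ?_
    rw [integral_mul_const]
    have h1 := hC₁ t₁ ht1I
    have h2 : 0 ≤ (2 * Λ) ^ ((p : ℝ) - n) := Real.rpow_nonneg (by linarith) _
    exact mul_le_mul_of_nonneg_right (h1.trans (le_max_left _ _)) h2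
  have hbound : thN n F q t₀ ^ p ≤ K * Λ ^ ((p : ℝ) - n / 2) := by
    refine hm.trans ?_
    have h1 : 0 ≤ Cn * Real.exp (20 * p * C₀) * (1 / Λ) ^ (-(n : ℝ) / 2) := by
      have : 0 ≤ (1 / Λ) ^ (-(n : ℝ) / 2) := Real.rpow_nonneg (by positivity) _
      positivity
    refine (mul_le_mul_of_nonneg_left hint h1).trans (le_of_eq ?_)
    have h2 : (1 / Λ) ^ (-(n : ℝ) / 2) = Λ ^ ((n : ℝ) / 2) := by
      rw [one_div, ← Real.rpow_neg_one, ← Real.rpow_mul hΛ0.le]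
      congr 1
      ring
    have h4 : Λ ^ ((n : ℝ) / 2) * Λ ^ ((p : ℝ) - n) = Λ ^ ((p : ℝ) - n / 2) := by
      rw [← Real.rpow_add hΛ0]
      congr 1
      ring
    have h5 : (2 * Λ) ^ ((p : ℝ) - n) = 2 ^ ((p : ℝ) - n) * Λ ^ ((p : ℝ) - n) :=
      Real.mul_rpow (by norm_num) hΛ0.le
    rw [h2, hK, ← h4, h5]
    ring
  have hfin : thN n F q t₀ ^ p ≤ (Kp * Λ ^ (1 - a)) ^ p := by
    refine hbound.trans (le_of_eq ?_)
    rw [mul_pow, hKpp]
    congr 1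
    rw [← Real.rpow_natCast, ← Real.rpow_mul hΛ0.le]
    congr 1
    rw [ha]
    field_simp
  have hr0 : 0 ≤ Λ ^ (1 - a) := Real.rpow_nonneg hΛ0.le _
  have h1 : 0 ≤ Kp * Λ ^ (1 - a) := mul_nonneg hKp0 hr0
  exact (le_of_pow_le_pow_left₀ hp0.ne' h1 hfin).trans
    (mul_le_mul_of_nonneg_right (le_max_right _ _) hr0)

end Helper55.HG
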